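import Pool.Agent.H38.CF.GeneralB

/-!
# Small maximal `k`-cube-free sets for every `k`

For every `k ≥ 2` there are maximal `k`-cube-free subsets of `Z_{2^n}` with
`O(2^{(1-1/k) n})` elements.

Definitions (file `Pool/Agent/H38/CF/Defs.lean`): `CubeFree n k A`: there are no
`a_1, ..., a_k` in `Z_{2^n}` (repetitions allowed) all of whose non-empty subset sums lie in `A`;
`MaxCubeFree n k A`: `A` is `k`-cube-free and no `A ∪ {x}` with `x` outside `A` is.
-/

set_option autoImplicit false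

namespace Pool.Agent.Results.MP_12469f_co.PowerSaving

open Pool.Agent.H38.CF

/-- For every `k ≥ 2` there is a constant `C` such that for every `n` the least cardinality
`s(n,k)` of a maximal `k`-cube-free subset of `Z_{2^n}` is at most `C 2^{(1-1/k) n}`. -/
theorem result (k : ℕ) (hk : 2 ≤ k) : ∃ C : ℝ, ∀ n : ℕ, 1 ≤ n → ∃ s : ℕ,
    IsLeast {m : ℕ | ∃ A : Set (ZMod (2 ^ n)), MaxCubeFree n k A ∧ A.ncard = m} s ∧
    (s : ℝ) ≤ C * (2 : ℝ) ^ ((1 - 1 / (k : ℝ)) * n) := by
  obtain ⟨c, C, hc, hC, h⟩ := power_saving k hk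
  refine ⟨C, fun n hn => ⟨minSize n k, ⟨?_, ?_⟩, (h n hn).2⟩⟩
  · exact exists_minSize n k (by omega)
  · rintro m ⟨A, hA, rfl⟩
    exact minSize_le hA

end Pool.Agent.Results.MP_12469f_co.PowerSaving
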