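import Pool.Agent.H38.CF.Defs

/-!
# A lower bound for the cardinality of maximal `k`-cube-free sets

Definitions (file `Pool/Agent/H38/CF/Defs.lean`): `CubeFree n k A`: there are no
`a_1, ..., a_k` in `Z_{2^n}` (repetitions allowed) all of whose non-empty subset sums lie in `A`;
`MaxCubeFree n k A`: `A` is `k`-cube-free and no `A ∪ {x}` with `x` outside `A` is.

Every element outside a maximal `k`-cube-free set `A`, `k ≥ 2`, is zero, half of an element of
`A`, a sum of two elements of `A` or a difference of two elements of `A`.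
-/

set_option autoImplicit false

namespace Pool.Agent.Results.MP_12469f_co.SqrtLowerBound

open Pool.Agent.H38.CF

/-- Every maximal `k`-cube-free subset `A` of `Z_{2^n}`, `k ≥ 2`, satisfies
`2^n ≤ 2 |A|^2 + 3 |A| + 1`. -/
theorem result (n k : ℕ) (hk : 2 ≤ k) (A : Set (ZMod (2 ^ n))) (hA : MaxCubeFree n k A) :
    2 ^ n ≤ 2 * A.ncard ^ 2 + 3 * A.ncard + 1 :=
  lower hk hA

end Pool.Agent.Results.MP_12469f_co.SqrtLowerBound
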