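import Pool.Agent.H38.CF.ThreeB

/-!
# The order of magnitude of `s(n,3)`

The smallest maximal 3-cube-free subsets of `Z_{2^n}` have cardinality of order `2^{n/2}`.

Definitions (file `Pool/Agent/H38/CF/Defs.lean`): `CubeFree n k A`: there are no
`a_1, ..., a_k` in `Z_{2^n}` (repetitions allowed) all of whose non-empty subset sums lie in `A`;
`MaxCubeFree n k A`: `A` is `k`-cube-free and no `A ∪ {x}` with `x` outside `A` is.

Construction: write `x` with four digits of base about `2^{n/4}`; the generators of a cube through
`x` carry the digits 0 and 3, the digits 1 and 2, and minus the digits 1 and 3 of `x`, and digits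
that are not carried are replaced by constants which encode the generator.  The six sums other than
`x` are free exactly at the six pairs of digits.  Elements with two digits near a multiple of the
constants are left out.  That the resulting set of size `O(2^{n/2})` contains no 3-cube is the
combinatorial heart (`Three.no_cube`).
-/

set_option autoImplicit false

namespace Pool.Agent.Results.MP_12469f_co.ThreeCubeOrder

open Pool.Agent.H38.CF

/-- There are positive constants `c`, `C` such that for every `n ≥ 1` the least cardinality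
`s(n,3)` of a maximal 3-cube-free subset of `Z_{2^n}` satisfies
`c 2^{n/2} ≤ s(n,3) ≤ C 2^{n/2}`. -/
theorem result : ∃ c C : ℝ, 0 < c ∧ 0 < C ∧ ∀ n : ℕ, 1 ≤ n → ∃ s : ℕ,
    IsLeast {m : ℕ | ∃ A : Set (ZMod (2 ^ n)), MaxCubeFree n 3 A ∧ A.ncard = m} s ∧
    c * Real.sqrt (2 ^ n) ≤ s ∧ (s : ℝ) ≤ C * Real.sqrt (2 ^ n) := by
  obtain ⟨c, C, hc, hC, h⟩ := three_order
  refine ⟨c, C, hc, hC, fun n hn => ⟨minSize n 3, ⟨?_, ?_⟩, (h n hn).1, (h n hn).2⟩⟩
  · exact exists_minSize n 3 (by norm_num)
  · rintro m ⟨A, hA, rfl⟩
    exact minSize_le hA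

end Pool.Agent.Results.MP_12469f_co.ThreeCubeOrder
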